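import Pool.Agent.Q216.IT.Main

/-!
# The assertion of Q1 fails
-/

set_option autoImplicit false

namespace Pool.Agent.Results.MP_28ce77_lc.AssertionFalse

open Filter Pool.Agent.Q216.IT

/-- There are first-order definable classes `J`, `K` of finite type and a polynomial `q` with
`f_J(n) ≤ q(f_K(n))` for all `n` such that, for every polynomial `p`, some isomorphism testing
algorithm `α` for `K` has no isomorphism testing algorithm `β` for `J` with
`m_J(β, n) ≤ p(m_K(α, n))` for all large `n`.

In the example `f_K(n) = 1` and `f_J(n) ≤ 2`, one algorithm `α` with `m_K(α, n) = 0` serves for all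
`p`, and `m_J(β, n) > n` for all `β` and all `n ≥ 1`. -/
theorem result : ∃ (σJ σK : Sig) (φJ : (lang σJ).Sentence) (φK : (lang σK).Sentence)
    (q : Polynomial ℕ),
    (∀ n, numTypes φJ n ≤ q.eval (numTypes φK n)) ∧
    (∀ p : Polynomial ℕ, ∃ α : Machine, IsTester φK α ∧
      ¬ ∃ β : Machine, IsTester φJ β ∧ ∀ᶠ n in atTop, maxSteps φJ β n ≤ p.eval (maxSteps φK α n)) ∧
    (∀ n, numTypes φK n = 1 ∧ numTypes φJ n ≤ 2) ∧
    (∃ α : Machine, IsTester φK α ∧ ∀ n, maxSteps φK α n = 0) ∧
    ∀ β : Machine, IsTester φJ β → ∀ n, 0 < n → n < maxSteps φJ β n := by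
  refine ⟨sg, sg, phiJ, phiK, Polynomial.C 2 * Polynomial.X, fun n => ?_, fun p => ?_,
    fun n => ⟨numTypes_K n, numTypes_J n⟩, ⟨accept, accept_tester, maxSteps_accept⟩,
    fun β hβ n hn => lower_bound β hβ n hn⟩
  · rw [numTypes_K]
    simpa using numTypes_J n
  · refine ⟨accept, accept_tester, ?_⟩
    rintro ⟨β, hβ, h⟩
    obtain ⟨n, h1, h2⟩ := (h.and (eventually_gt_atTop (p.eval 0))).exists
    rw [maxSteps_accept] at h1
    have h3 := lower_bound β hβ n (by omega)
    omega

end Pool.Agent.Results.MP_28ce77_lc.AssertionFalse
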